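import Pool.Agent.H49.RL.Circ

/-!
# Prescribed radial limits for power series with bounded coefficients

For every pair of Borel functions from the unit circle to the extended reals there is one power series,
with coefficients bounded by one and tending to zero, whose real part and imaginary part have these
functions as radial limits at almost every point.
-/

set_option autoImplicit false
open Filter Topology MeasureTheory

namespace Pool.Agent.Results.MP_2e8a17_an.RadialLimits

/-- The radial limit of `f` at `z` is `t`, in the convention of the problem: the ordinary limit in `ℂ` if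
`t` is finite; modulus to infinity and `f/|f|` to `1` (to `-1`) if `t = +∞` (if `t = -∞`). -/
def RadialLimit (f : ℂ → ℂ) (z : ℂ) (t : EReal) : Prop :=
  (∀ x : ℝ, t = x → Tendsto (fun r : ℝ => f (r * z)) (𝓝[<] 1) (𝓝 (x : ℂ))) ∧
  (t = ⊤ → Tendsto (fun r : ℝ => ‖f (r * z)‖) (𝓝[<] 1) atTop ∧
    Tendsto (fun r : ℝ => f (r * z) / ‖f (r * z)‖) (𝓝[<] 1) (𝓝 1)) ∧
  (t = ⊥ → Tendsto (fun r : ℝ => ‖f (r * z)‖) (𝓝[<] 1) atTop ∧
    Tendsto (fun r : ℝ => f (r * z) / ‖f (r * z)‖) (𝓝[<] 1) (𝓝 (-1)))

/-- **Prescribed radial limits.**  The case `h = 0` answers the question, in all three readings of an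
infinite radial limit at once. -/
theorem result (g h : Metric.sphere (0 : ℂ) 1 → EReal) (hg : Measurable g) (hh : Measurable h) :
    ∃ (a : ℕ → ℂ) (f : ℂ → ℂ), (∀ n, ‖a n‖ ≤ 1) ∧ Tendsto a atTop (𝓝 0) ∧
      (∀ z, ‖z‖ < 1 → HasSum (fun n => a n * z ^ n) (f z)) ∧
      ∀ᵐ (z : Metric.sphere (0 : ℂ) 1) ∂(Measure.hausdorffMeasure 1),
        Tendsto (fun r : ℝ => ((f (r * z)).re : EReal)) (𝓝[<] 1) (𝓝 (g z)) ∧
        Tendsto (fun r : ℝ => ((f (r * z)).im : EReal)) (𝓝[<] 1) (𝓝 (h z)) ∧
        (h z = 0 → RadialLimit f z (g z)) := by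
  obtain ⟨a, ha, ha0, hae⟩ := Pool.Agent.H49.RL.main_sphere g h hg hh
  refine ⟨a, fun z => ∑' n, a n * z ^ n, ha, ha0, fun z hz => ?_, ?_⟩
  · refine (Summable.of_norm_bounded (summable_geometric_of_lt_one (norm_nonneg z) hz) fun n => ?_).hasSum
    rw [norm_mul, norm_pow]
    exact mul_le_of_le_one_left (by positivity) (ha n)
  · filter_upwards [hae] with z hz
    refine ⟨hz.1, hz.2, fun h0 => ?_⟩
    have h2 := hz.2
    rw [h0] at h2
    exact Pool.Agent.H49.RL.reading hz.1 h2

end Pool.Agent.Results.MP_2e8a17_an.RadialLimits
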